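import Pool.Agent.Helper77.SD.St

/-! # Project SD, module SOL: solutions form a vector space invariant under the translation by `l` -/

set_option autoImplicit false

namespace Pool.Agent.Helper76.SD

open Pool.Agent.Helper77.SD
open MeasureTheory Metric Set
open scoped Gradient RealInnerProductSpace ENNReal

variable {d : ℕ}

private lemma memLp_ball_of_cont {F : Type} [NormedAddCommGroup F] {f : E d → F} (hf : Continuous f) (R : ℝ) :
    MemLp f 2 (volume.restrict (ball (0 : E d) R)) := by
  have hK : IsCompact (closedBall (0 : E d) R) := isCompact_closedBall 0 R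
  have h1 : MemLp f 2 (volume.restrict (closedBall (0 : E d) R)) := by
    obtain ⟨C, hC⟩ := hK.exists_bound_of_continuousOn hf.continuousOn
    haveI : IsFiniteMeasure (volume.restrict (closedBall (0 : E d) R)) :=
      ⟨by simpa using hK.measure_lt_top⟩
    refine MemLp.of_bound (hf.continuousOn.aestronglyMeasurable measurableSet_closedBall) C ?_
    exact (ae_restrict_iff' measurableSet_closedBall).mpr (Filter.Eventually.of_forall hC)
  exact h1.mono_measure (Measure.restrict_mono ball_subset_closedBall le_rfl)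

private lemma grad_lin {v₁ v₂ : E d → ℝ} (h₁ : ContDiff ℝ 1 v₁) (h₂ : ContDiff ℝ 1 v₂) (a b : ℝ) (x : E d) :
    ∇ (fun x => a * v₁ x + b * v₂ x) x = a • ∇ v₁ x + b • ∇ v₂ x := by
  have d₁ : HasGradientAt v₁ (∇ v₁ x) x := (h₁.differentiable (by norm_num) x).hasGradientAt
  have d₂ : HasGradientAt v₂ (∇ v₂ x) x := (h₂.differentiable (by norm_num) x).hasGradientAt
  have h : HasGradientAt (fun x => a * v₁ x + b * v₂ x) (a • ∇ v₁ x + b • ∇ v₂ x) x := by
    rw [hasGradientAt_iff_hasFDerivAt] at *
    refine ((d₁.const_mul a).add (d₂.const_mul b)).congr_fderiv ?_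
    simp [map_add]
  exact h.gradient

private lemma grad_shift (v : E d → ℝ) (l x : E d) :
    ∇ (fun x => v (x + l)) x = ∇ v (x + l) := by
  unfold gradient
  rw [fderiv_comp_add_right]

private lemma int_A {A : E d → E d →L[ℝ] E d} {Λ' : ℝ} (hA : Measurable A) (hb : ∀ x, ‖A x‖ ≤ Λ')
    {G : E d → E d} (hG : ∀ R : ℝ, MemLp G 2 (volume.restrict (ball (0 : E d) R)))
    {ψ : E d → ℝ} (hψ : ContDiff ℝ 1 ψ) (hc : HasCompactSupport ψ) :
    Integrable (fun x => ⟪A x (G x), ∇ ψ x⟫) := by
  have hcg : Continuous (∇ ψ) := continuous_grad hψ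
  have hcs : HasCompactSupport (∇ ψ) := compact_grad hc
  obtain ⟨K, hK⟩ := hcs.exists_bound_of_continuous hcg
  obtain ⟨R, hR⟩ := hcs.isCompact.isBounded.subset_ball (0 : E d)
  have hsupp : Function.support (fun x => ⟪A x (G x), ∇ ψ x⟫) ⊆ ball (0 : E d) R := by
    intro x hx
    apply hR
    apply subset_tsupport
    intro h0
    apply hx
    show ⟪A x (G x), ∇ ψ x⟫ = 0
    rw [h0, inner_zero_right]
  rw [← integrableOn_iff_integrable_of_support_subset hsupp]
  haveI : IsFiniteMeasure (volume.restrict (ball (0 : E d) R)) :=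
    ⟨by simpa using measure_ball_lt_top⟩
  have hG1 : Integrable G (volume.restrict (ball (0 : E d) R)) :=
    (hG R).integrable (by norm_num)
  have hm1 : AEStronglyMeasurable (fun x => A x (G x)) (volume.restrict (ball (0 : E d) R)) := by
    have hA' : AEStronglyMeasurable A (volume.restrict (ball (0 : E d) R)) := hA.aestronglyMeasurable
    exact isBoundedBilinearMap_apply.continuous.comp_aestronglyMeasurable (hA'.prodMk hG1.1)
  have hΛ : 0 ≤ Λ' := le_trans (norm_nonneg _) (hb 0)
  have hK0 : 0 ≤ K := le_trans (norm_nonneg _) (hK 0)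
  refine (hG1.norm.const_mul (Λ' * K)).mono' ?_ ?_
  · exact hm1.inner hcg.aestronglyMeasurable
  · refine Filter.Eventually.of_forall fun x => ?_
    calc ‖⟪A x (G x), ∇ ψ x⟫‖ ≤ ‖A x (G x)‖ * ‖∇ ψ x‖ := norm_inner_le_norm _ _
      _ ≤ (Λ' * ‖G x‖) * K := by
        refine mul_le_mul ?_ (hK x) (norm_nonneg _) (by positivity)
        exact le_trans ((A x).le_opNorm _) (mul_le_mul_of_nonneg_right (hb x) (norm_nonneg _))
      _ = Λ' * K * ‖G x‖ := by ring

private lemma int_V {V : E d → ℝ} {M : ℝ} (hV : Measurable V) (hb : ∀ x, |V x| ≤ M)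
    {u : E d → ℝ} (hu : ∀ R : ℝ, MemLp u 2 (volume.restrict (ball (0 : E d) R)))
    {ψ : E d → ℝ} (hψ : ContDiff ℝ 1 ψ) (hc : HasCompactSupport ψ) :
    Integrable (fun x => V x * u x * ψ x) := by
  obtain ⟨K, hK⟩ := hc.exists_bound_of_continuous hψ.continuous
  obtain ⟨R, hR⟩ := hc.isCompact.isBounded.subset_ball (0 : E d)
  have hsupp : Function.support (fun x => V x * u x * ψ x) ⊆ ball (0 : E d) R := by
    intro x hx
    apply hR
    apply subset_tsupport
    intro h0
    apply hx
    show V x * u x * ψ x = 0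
    rw [h0, mul_zero]
  rw [← integrableOn_iff_integrable_of_support_subset hsupp]
  haveI : IsFiniteMeasure (volume.restrict (ball (0 : E d) R)) :=
    ⟨by simpa using measure_ball_lt_top⟩
  have hu1 : Integrable u (volume.restrict (ball (0 : E d) R)) :=
    (hu R).integrable (by norm_num)
  have hM : 0 ≤ M := le_trans (abs_nonneg _) (hb 0)
  have hK0 : 0 ≤ K := le_trans (norm_nonneg _) (hK 0)
  refine (hu1.norm.const_mul (M * K)).mono' ?_ ?_
  · exact (hV.aestronglyMeasurable.mul hu1.1).mul hψ.continuous.aestronglyMeasurable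
  · refine Filter.Eventually.of_forall fun x => ?_
    calc ‖V x * u x * ψ x‖ = |V x| * ‖u x‖ * ‖ψ x‖ := by
          rw [norm_mul, norm_mul, Real.norm_eq_abs (V x)]
      _ ≤ M * ‖u x‖ * K := by
        refine mul_le_mul ?_ (hK x) (norm_nonneg _) (by positivity)
        exact mul_le_mul_of_nonneg_right (hb x) (norm_nonneg _)
      _ = M * K * ‖u x‖ := by ring

private lemma mp_ball (l : E d) (R : ℝ) :
    MeasurePreserving (fun x : E d => x + l) (volume.restrict (ball (0 : E d) R))
      (volume.restrict (ball l R)) := by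
  have h := (measurePreserving_add_right (volume : Measure (E d)) l).restrict_preimage
    (measurableSet_ball (x := l) (ε := R))
  have e : (fun x : E d => x + l) ⁻¹' ball l R = ball (0 : E d) R := by
    ext x
    simp [mem_ball, dist_eq_norm]
  rw [e] at h
  exact h

private lemma ball_sub (l : E d) (R : ℝ) : ball l R ⊆ ball (0 : E d) (R + ‖l‖) := by
  intro x hx
  rw [mem_ball, dist_eq_norm] at hx
  rw [mem_ball_zero_iff]
  calc ‖x‖ = ‖(x - l) + l‖ := by rw [sub_add_cancel]
    _ ≤ ‖x - l‖ + ‖l‖ := norm_add_le _ _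
    _ < R + ‖l‖ := by linarith

private lemma memLp_shift {F : Type} [NormedAddCommGroup F] {f : E d → F}
    (hf : ∀ R : ℝ, MemLp f 2 (volume.restrict (ball (0 : E d) R))) (l : E d) (R : ℝ) :
    MemLp (fun x => f (x + l)) 2 (volume.restrict (ball (0 : E d) R)) := by
  have h : MemLp f 2 (volume.restrict (ball l R)) :=
    (hf (R + ‖l‖)).mono_measure (Measure.restrict_mono (ball_sub l R) le_rfl)
  exact h.comp_measurePreserving (mp_ball l R)

private lemma setInt_shift (f : E d → ℝ) (hf : ∀ x, 0 ≤ f x) (l : E d) (R : ℝ)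
    (hi : IntegrableOn f (ball (0 : E d) (R + ‖l‖))) :
    ∫ x in ball (0 : E d) R, f (x + l) ≤ ∫ x in ball (0 : E d) (R + ‖l‖), f x := by
  have h1 : ∫ x in ball (0 : E d) R, f (x + l) = ∫ x in ball l R, f x :=
    (mp_ball l R).integral_comp (MeasurableEquiv.addRight l).measurableEmbedding f
  rw [h1]
  exact setIntegral_mono_set hi (Filter.Eventually.of_forall fun x => hf x)
    (ball_sub l R).eventuallyLE

theorem hSOL : StSOL := by
  intro d l A V Λ' M hA hV hbA hbV hpA hpV u u' G G' hu hu'
  constructor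
  · intro a b
    refine ⟨fun R => ?_, fun R => ?_, fun R ε hε => ?_, fun ψ hψ hc => ?_⟩
    · exact ((hu.loc R).const_mul a).add ((hu'.loc R).const_mul b)
    · exact ((hu.locG R).const_smul a).add ((hu'.locG R).const_smul b)
    · have hK : (0 : ℝ) < 2 * a ^ 2 + 2 * b ^ 2 + 1 := by positivity
      set K : ℝ := 2 * a ^ 2 + 2 * b ^ 2 + 1 with hKd
      have hε' : 0 < ε / K := by positivity
      obtain ⟨v, hv, hv1, hv2⟩ := hu.app R (ε / K) hε'
      obtain ⟨v', hv', hv1', hv2'⟩ := hu'.app R (ε / K) hε'
      have hKε : K * (ε / K) = ε := by field_simp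
      have hfin : ∀ s t : ℝ, s < ε / K → t < ε / K → 2 * a ^ 2 * s + 2 * b ^ 2 * t < ε := by
        intro s t hs ht
        have h1 : 2 * a ^ 2 * s ≤ 2 * a ^ 2 * (ε / K) := mul_le_mul_of_nonneg_left hs.le (by positivity)
        have h2 : 2 * b ^ 2 * t ≤ 2 * b ^ 2 * (ε / K) := mul_le_mul_of_nonneg_left ht.le (by positivity)
        have h3 : (2 * a ^ 2 + 2 * b ^ 2 + 1) * (ε / K) = ε := hKε
        nlinarith
      refine ⟨fun x => a * v x + b * v' x, (hv.const_smul a).add (hv'.const_smul b), ?_, ?_⟩
      · have i1 : Integrable (fun x => (v x - u x) ^ 2) (volume.restrict (ball (0 : E d) R)) :=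
          ((memLp_ball_of_cont hv.continuous R).sub (hu.loc R)).integrable_sq
        have i2 : Integrable (fun x => (v' x - u' x) ^ 2) (volume.restrict (ball (0 : E d) R)) :=
          ((memLp_ball_of_cont hv'.continuous R).sub (hu'.loc R)).integrable_sq
        refine lt_of_le_of_lt ?_ (hfin _ _ hv1 hv1')
        rw [← integral_const_mul, ← integral_const_mul, ← integral_add (i1.const_mul _) (i2.const_mul _)]
        refine integral_mono_of_nonneg (Filter.Eventually.of_forall fun x => sq_nonneg _)
          ((i1.const_mul _).add (i2.const_mul _)) (Filter.Eventually.of_forall fun x => ?_)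
        show (a * v x + b * v' x - (a * u x + b * u' x)) ^ 2 ≤
          2 * a ^ 2 * (v x - u x) ^ 2 + 2 * b ^ 2 * (v' x - u' x) ^ 2
        nlinarith [sq_nonneg (a * (v x - u x) - b * (v' x - u' x))]
      · have i1 : Integrable (fun x => ‖∇ v x - G x‖ ^ 2) (volume.restrict (ball (0 : E d) R)) :=
          (memLp_two_iff_integrable_sq_norm
            ((memLp_ball_of_cont (continuous_grad hv) R).sub (hu.locG R)).1).1
            ((memLp_ball_of_cont (continuous_grad hv) R).sub (hu.locG R))
        have i2 : Integrable (fun x => ‖∇ v' x - G' x‖ ^ 2) (volume.restrict (ball (0 : E d) R)) :=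
          (memLp_two_iff_integrable_sq_norm
            ((memLp_ball_of_cont (continuous_grad hv') R).sub (hu'.locG R)).1).1
            ((memLp_ball_of_cont (continuous_grad hv') R).sub (hu'.locG R))
        refine lt_of_le_of_lt ?_ (hfin _ _ hv2 hv2')
        rw [← integral_const_mul, ← integral_const_mul, ← integral_add (i1.const_mul _) (i2.const_mul _)]
        refine integral_mono_of_nonneg (Filter.Eventually.of_forall fun x => sq_nonneg _)
          ((i1.const_mul _).add (i2.const_mul _)) (Filter.Eventually.of_forall fun x => ?_)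
        show ‖∇ (fun x => a * v x + b * v' x) x - (a • G x + b • G' x)‖ ^ 2 ≤
          2 * a ^ 2 * ‖∇ v x - G x‖ ^ 2 + 2 * b ^ 2 * ‖∇ v' x - G' x‖ ^ 2
        rw [grad_lin hv hv']
        have e1 : a • ∇ v x + b • ∇ v' x - (a • G x + b • G' x) =
            a • (∇ v x - G x) + b • (∇ v' x - G' x) := by
          rw [smul_sub, smul_sub]; abel
        rw [e1]
        have e2 : ‖a • (∇ v x - G x) + b • (∇ v' x - G' x)‖ ≤
            |a| * ‖∇ v x - G x‖ + |b| * ‖∇ v' x - G' x‖ := by
          refine (norm_add_le _ _).trans_eq ?_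
          rw [norm_smul, norm_smul, Real.norm_eq_abs, Real.norm_eq_abs]
        have e3 : ‖a • (∇ v x - G x) + b • (∇ v' x - G' x)‖ ^ 2 ≤
            (|a| * ‖∇ v x - G x‖ + |b| * ‖∇ v' x - G' x‖) ^ 2 :=
          pow_le_pow_left₀ (norm_nonneg _) e2 2
        refine e3.trans ?_
        have ha : |a| ^ 2 = a ^ 2 := sq_abs a
        have hb : |b| ^ 2 = b ^ 2 := sq_abs b
        rw [← ha, ← hb]
        nlinarith [sq_nonneg (|a| * ‖∇ v x - G x‖ - |b| * ‖∇ v' x - G' x‖)]
    · have i1 := int_A hA hbA hu.locG hψ hc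
      have i2 := int_A hA hbA hu'.locG hψ hc
      have j1 := int_V hV hbV hu.loc hψ hc
      have j2 := int_V hV hbV hu'.loc hψ hc
      have e1 : (fun x => ⟪A x (a • G x + b • G' x), ∇ ψ x⟫) =
          fun x => a * ⟪A x (G x), ∇ ψ x⟫ + b * ⟪A x (G' x), ∇ ψ x⟫ := by
        funext x
        rw [map_add, map_smul, map_smul, inner_add_left, real_inner_smul_left, real_inner_smul_left]
      have e2 : (fun x => V x * (a * u x + b * u' x) * ψ x) =
          fun x => a * (V x * u x * ψ x) + b * (V x * u' x * ψ x) := by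
        funext x; ring
      rw [e1, e2, integral_add (i1.const_mul a) (i2.const_mul b),
        integral_add (j1.const_mul a) (j2.const_mul b), integral_const_mul, integral_const_mul,
        integral_const_mul, integral_const_mul, hu.eq ψ hψ hc, hu'.eq ψ hψ hc]
  · refine ⟨fun R => memLp_shift hu.loc l R, fun R => memLp_shift hu.locG l R, fun R ε hε => ?_,
      fun ψ hψ hc => ?_⟩
    · obtain ⟨v, hv, hv1, hv2⟩ := hu.app (R + ‖l‖) ε hε
      refine ⟨fun x => v (x + l), hv.comp (contDiff_id.add contDiff_const), ?_, ?_⟩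
      · have i1 : Integrable (fun x => (v x - u x) ^ 2) (volume.restrict (ball (0 : E d) (R + ‖l‖))) :=
          ((memLp_ball_of_cont hv.continuous _).sub (hu.loc _)).integrable_sq
        exact lt_of_le_of_lt (setInt_shift (fun x => (v x - u x) ^ 2) (fun x => sq_nonneg _) l R i1) hv1
      · have i1 : Integrable (fun x => ‖∇ v x - G x‖ ^ 2) (volume.restrict (ball (0 : E d) (R + ‖l‖))) :=
          (memLp_two_iff_integrable_sq_norm
            ((memLp_ball_of_cont (continuous_grad hv) _).sub (hu.locG _)).1).1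
            ((memLp_ball_of_cont (continuous_grad hv) _).sub (hu.locG _))
        have h := lt_of_le_of_lt (setInt_shift (fun x => ‖∇ v x - G x‖ ^ 2) (fun x => sq_nonneg _) l R i1) hv2
        simp only [grad_shift]
        exact h
    · set ψ' : E d → ℝ := fun y => ψ (y + (-l)) with hψ'
      have hψ'1 : ContDiff ℝ 1 ψ' := hψ.comp (contDiff_id.add contDiff_const)
      have hψ'2 : HasCompactSupport ψ' := hc.comp_homeomorph (Homeomorph.addRight (-l))
      have h := hu.eq ψ' hψ'1 hψ'2
      rw [← integral_add_right_eq_self (fun x => ⟪A x (G x), ∇ ψ' x⟫) l,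
        ← integral_add_right_eq_self (fun x => V x * u x * ψ' x) l] at h
      have e1 : ∀ x, ∇ ψ' (x + l) = ∇ ψ x := by
        intro x
        rw [hψ', grad_shift]
        simp
      have e2 : ∀ x, ψ' (x + l) = ψ x := by
        intro x
        simp [hψ']
      simp only [e1, e2, hpA, hpV] at h
      exact h

end Pool.Agent.Helper76.SD
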